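import Mathlib

/-! Symmetric monomial sphere maps with source dimension two. -/

namespace Pool.Agent.P.MP_86d0e2_an

/-- The squared norm of the map whose components are `c j * z ^ a j * w ^ b j`. -/
noncomputable def nsq {N : ℕ} (c : Fin N → ℂ) (a b : Fin N → ℕ) (z w : ℂ) : ℝ :=
  ∑ j, ‖c j * z ^ a j * w ^ b j‖ ^ 2

/-- The map with components `c j * z ^ a j * w ^ b j` sends the unit sphere of `ℂ²` to the unit
sphere of `ℂ^N`, its squared norm is symmetric in `z` and `w`, and it has degree `d`. -/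
structure IsSymMap (d : ℕ) {N : ℕ} (c : Fin N → ℂ) (a b : Fin N → ℕ) : Prop where
  sphere : ∀ z w : ℂ, ‖z‖ ^ 2 + ‖w‖ ^ 2 = 1 → nsq c a b z w = 1
  symm : ∀ z w : ℂ, nsq c a b z w = nsq c a b w z
  deg_le : ∀ j, c j ≠ 0 → a j + b j ≤ d
  deg_eq : ∃ j, c j ≠ 0 ∧ a j + b j = d

end Pool.Agent.P.MP_86d0e2_an
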