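import Mathlib

/-! Sign changes of half rows of a symmetric Newton diagram. -/

namespace Pool.Agent.P.MP_86d0e2_an

open Finset

/-- the largest number of sign changes of `r 0, …, r (i - 1), s` when zeros get arbitrary signs -/
noncomputable def F (r : ℕ → ℝ) : ℕ → ℝ → ℕ
  | 0, _ => 0
  | i + 1, s => if 0 < s * r i then F r i s else F r i (-s) + 1

theorem F_pos {r : ℕ → ℝ} {i : ℕ} {s : ℝ} (h : 0 < s * r i) : F r (i + 1) s = F r i s := if_pos h

theorem F_neg {r : ℕ → ℝ} {i : ℕ} {s : ℝ} (h : s * r i ≤ 0) :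
    F r (i + 1) s = F r i (-s) + 1 := if_neg (not_lt.2 h)

theorem F_flip (r : ℕ → ℝ) (i : ℕ) : ∀ s, F r i s ≤ F r i (-s) + 1 := by
  induction i with
  | zero => exact fun _ => Nat.zero_le _
  | succ i ih =>
    intro s
    rcases lt_or_ge 0 (s * r i) with h | h
    · rw [F_pos h, F_neg (by linarith : -s * r i ≤ 0), neg_neg]
      omega
    · rw [F_neg h]
      rcases lt_or_ge 0 (-s * r i) with h' | h'
      · rw [F_pos h']
      · rw [F_neg h']
        have := ih (-s)
        omega

theorem le_F (r : ℕ → ℝ) (i : ℕ) (s : ℝ) : F r i s ≤ F r (i + 1) s := by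
  rcases lt_or_ge 0 (s * r i) with h | h
  · rw [F_pos h]
  · rw [F_neg h]
    exact F_flip r i s

theorem F_le (r : ℕ → ℝ) (i : ℕ) (s : ℝ) : F r (i + 1) s ≤ F r i (-s) + 1 := by
  rcases lt_or_ge 0 (s * r i) with h | h
  · rw [F_pos h]
    exact F_flip r i s
  · rw [F_neg h]

theorem F_sum {r g : ℕ → ℝ} (h0 : g 0 = r 0) (hs : ∀ i, g (i + 1) = r i + r (i + 1)) (i : ℕ) :
    ∀ s, F g i s ≤ F r i s := by
  induction i with
  | zero => exact fun _ => le_rfl
  | succ i ih =>
    intro s
    rcases lt_or_ge 0 (s * r i) with h | h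
    · rw [F_pos h]
      rcases lt_or_ge 0 (s * g i) with h' | h'
      · rw [F_pos h']
        exact ih s
      · rw [F_neg h']
        rcases i with _ | i
        · rw [h0] at h'
          linarith
        · rw [hs, mul_add] at h'
          have := ih (-s)
          rw [F_pos (r := r) (by linarith)] at this
          rw [F_neg (r := r) (by linarith)]
          omega
    · rw [F_neg h]
      exact (F_le g i s).trans (Nat.succ_le_succ (ih _))

theorem F_sum' {r g : ℕ → ℝ} (h0 : g 0 = r 0) (hs : ∀ i, g (i + 1) = r i + r (i + 1)) (i : ℕ) :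
    (∃ j ≤ i, r j ≠ 0) → ∀ s, s ≠ 0 →
      (if 0 < s * r i then F g (i + 1) s else F g (i + 1) (-s) + 1) ≤ F r (i + 1) s := by
  induction i with
  | zero =>
    rintro ⟨j, hj, h⟩ s hs0
    obtain rfl := Nat.le_zero.1 hj
    split_ifs with h1
    · exact F_sum h0 hs _ s
    · have h2 : 0 < -s * r 0 := by
        have := mul_ne_zero hs0 h
        rw [neg_mul, neg_pos]
        exact lt_of_le_of_ne (not_lt.1 h1) this
      rw [F_neg (not_lt.1 h1), F_pos (by rwa [h0])]
      exact le_rfl
  | succ i ih =>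
    rintro ⟨j, hj, h⟩ s hs0
    split_ifs with h1
    · exact F_sum h0 hs _ s
    · rw [F_neg (r := r) (not_lt.1 h1)]
      by_cases h2 : r (i + 1) = 0
      · have h3 : j ≤ i := by
          rcases Nat.lt_or_ge i j with c | c
          · exact absurd (by rw [show j = i + 1 by omega, h2]) h
          · exact c
        have := ih ⟨j, h3, h⟩ (-s) (neg_ne_zero.2 hs0)
        have e : g (i + 1) = r i := by rw [hs, h2, add_zero]
        rw [← e] at this
        exact Nat.succ_le_succ this
      · have h3 : 0 < -s * r (i + 1) := by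
          have := mul_ne_zero hs0 h2
          rw [neg_mul, neg_pos]
          exact lt_of_le_of_ne (not_lt.1 h1) this
        have := F_sum h0 hs (i + 1 + 1) (-s)
        rw [F_pos h3] at this
        omega

open scoped Classical in
theorem F_node {r r' p : ℕ → ℝ} (h : ∀ j, r' j = r j - p j) (i : ℕ) :
    ∀ s, F r' i s ≤ F r i s + 2 * #{j ∈ range i | p j ≠ 0} := by
  induction i with
  | zero => exact fun _ => Nat.zero_le _
  | succ i ih =>
    intro s
    rw [range_add_one, filter_insert]
    split_ifs with c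
    · rw [card_insert_of_notMem (by simp)]
      have := F_le r' i s
      have := ih (-s)
      have := le_F r i s
      have := F_flip r i (-s)
      rw [neg_neg] at this
      omega
    · have e : r' i = r i := by rw [h, not_not.1 c, sub_zero]
      rcases lt_or_ge 0 (s * r i) with h1 | h1
      · rw [F_pos h1, F_pos (by rwa [e])]
        exact ih s
      · rw [F_neg h1, F_neg (by rwa [e])]
        have := ih (-s)
        omega

open scoped Classical in
theorem F_centre {r r' p : ℕ → ℝ} (h : ∀ j, r' j = r j - p j) (i : ℕ) (hp : 0 ≤ p i) :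
    F r' (i + 1) (-1) ≤ F r (i + 1) (-1) + 2 * #{j ∈ range i | p j ≠ 0} := by
  rcases lt_or_ge 0 (-1 * r i) with h1 | h1
  · rw [F_pos h1, F_pos (by rw [h]; linarith)]
    exact F_node h i _
  · rw [F_neg h1]
    have := F_le r' i (-1)
    have := F_node h i (- -1)
    omega

open scoped Classical in
theorem F_top (g : ℕ → ℝ) (i : ℕ) : ∀ s, i ≤ F g i s + #{j ∈ range i | g j ≠ 0} := by
  induction i with
  | zero => exact fun _ => Nat.zero_le _
  | succ i ih =>
    intro s
    rw [range_add_one, filter_insert]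
    split_ifs with c
    · rw [card_insert_of_notMem (by simp)]
      have := le_F g i s
      have := ih s
      omega
    · rw [F_neg (by rw [not_not.1 c, mul_zero])]
      have := ih (-s)
      omega

open scoped Classical in
/-- the count of the terms below the diagonal -/
theorem rows {q p : ℕ → ℕ → ℝ} {D : ℕ} (b0 : ∀ i, q 0 (i + 1) = 0)
    (h0 : ∀ n, q (n + 1) 0 = q n 0 - p (n + 1) 0)
    (hs : ∀ n i, q (n + 1) (i + 1) = q n i + q n (i + 1) - p (n + 1) (i + 1))
    (pn : ∀ n i, 0 ≤ p n i) (pz : ∀ n i, n < i → p n i = 0)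
    (ps : ∀ n i j, i + j = n → p n i = p n j) (top : ∀ i, q (2 * D + 1) i = 0)
    (hd : ∃ i, p (2 * D + 1) i ≠ 0) :
    D + 1 ≤ 2 * ∑ n ∈ range (2 * D + 2), #{i ∈ range ((n + 1) / 2) | p n i ≠ 0} := by
  have qz : ∀ n i, n < i → q n i = 0 := fun n => by
    induction n with
    | zero =>
      rintro (_ | i) h
      · omega
      · exact b0 i
    | succ n ih =>
      rintro (_ | i) h
      · omega
      · rw [hs, ih _ (by omega), ih _ (by omega), pz _ _ h]
        ring
  have qs : ∀ n i j, i + j = n → q n i = q n j := fun n => by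
    induction n with
    | zero =>
      intro i j h
      rw [show i = 0 by omega, show j = 0 by omega]
    | succ n ih =>
      have e : q (n + 1) 0 = q (n + 1) (n + 1) := by
        rw [h0, hs, ih 0 n (by omega), qz n (n + 1) (by omega), ps _ 0 (n + 1) (by omega)]
        ring
      rintro (_ | i) (_ | j) h
      · rfl
      · rw [e, ← h, zero_add]
      · rw [e, ← h]
      · rw [hs, hs, ih i (j + 1) (by omega), ih (i + 1) j (by omega), ps _ _ _ h]
        ring
  obtain ⟨g, hg⟩ : ∃ g : ℕ → ℕ → ℝ, ∀ n i, g n i = q (n + 1) i + p (n + 1) i := ⟨_, fun _ _ => rfl⟩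
  have g0 : ∀ n, g n 0 = q n 0 := fun n => by rw [hg, h0]; ring
  have gs : ∀ n i, g n (i + 1) = q n i + q n (i + 1) := fun n i => by rw [hg, hs]; ring
  have gq : ∀ n i, q (n + 1) i = g n i - p (n + 1) i := fun n i => by rw [hg]; ring
  have down : ∀ n, (∃ i, 0 < g n i) → ∃ i, 0 < q n i := by
    rintro n ⟨_ | i, h⟩
    · exact ⟨0, by rwa [g0] at h⟩
    · rw [gs] at h
      rcases lt_or_ge 0 (q n i) with c | c
      · exact ⟨i, c⟩
      · exact ⟨i + 1, by linarith⟩
  have pos : ∀ k n, n + k = 2 * D → ∃ i, 0 < q n i := fun k => by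
    induction k with
    | zero =>
      intro n h
      obtain ⟨i, hi⟩ := hd
      refine down n ⟨i, ?_⟩
      rw [hg, show n = 2 * D from h, top, zero_add]
      exact lt_of_le_of_ne (pn _ _) hi.symm
    | succ k ih =>
      intro n h
      obtain ⟨i, hi⟩ := ih (n + 1) (by omega)
      exact down n ⟨i, by rw [hg]; linarith [pn (n + 1) i]⟩
  have s1 : ∀ n, n ≤ 2 * D → F (g n) ((n + 1) / 2 + 1) (-1) ≤ F (q n) (n / 2 + 1) (-1) :=
    fun n hn => by
      obtain ⟨m, rfl | rfl⟩ := Nat.even_or_odd' n
      · rw [show (2 * m + 1) / 2 = 2 * m / 2 by omega]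
        exact F_sum (g0 _) (gs _) _ _
      · obtain ⟨i, hi⟩ := pos (2 * D - (2 * m + 1)) (2 * m + 1) (by omega)
        have hi' : i ≤ 2 * m + 1 := not_lt.1 fun c => hi.ne' (qz _ _ c)
        have ex : ∃ j ≤ m, q (2 * m + 1) j ≠ 0 := by
          rcases Nat.lt_or_ge m i with c | c
          · exact ⟨2 * m + 1 - i, by omega, by rw [qs _ _ i (by omega)]; exact hi.ne'⟩
          · exact ⟨i, c, hi.ne'⟩
        have := F_sum' (g0 _) (gs _) m ex (-1) (by norm_num)
        rw [show (2 * m + 1 + 1) / 2 = m + 1 by omega, show (2 * m + 1) / 2 = m by omega]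
        refine le_trans (le_of_eq ?_) this
        have e : g (2 * m + 1) (m + 1) = 2 * q (2 * m + 1) m := by
          rw [gs, qs _ (m + 1) m (by omega)]
          ring
        split_ifs with c
        · exact F_pos (by rw [e]; linarith)
        · exact F_neg (by rw [e]; linarith)
  have s2 : ∀ n, F (q (n + 1)) ((n + 1) / 2 + 1) (-1) ≤ F (g n) ((n + 1) / 2 + 1) (-1) +
      2 * #{i ∈ range ((n + 1 + 1) / 2) | p (n + 1) i ≠ 0} := fun n => by
    obtain ⟨m, rfl | rfl⟩ := Nat.even_or_odd' n
    · rw [show (2 * m + 1 + 1) / 2 = (2 * m + 1) / 2 + 1 by omega]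
      exact F_node (gq _) _ _
    · rw [show (2 * m + 1 + 1 + 1) / 2 = (2 * m + 1 + 1) / 2 by omega]
      exact F_centre (gq _) _ (pn _ _)
  have s3 : ∀ n, n ≤ 2 * D → F (q n) (n / 2 + 1) (-1) ≤
      1 + 2 * ∑ k ∈ range (n + 1), #{i ∈ range ((k + 1) / 2) | p k i ≠ 0} := fun n => by
    induction n with
    | zero => exact fun _ => (F_le (q 0) 0 (-1)).trans (by simp [F])
    | succ n ih =>
      intro hn
      have := ih (by omega)
      have := s1 n (by omega)
      have := s2 n
      rw [sum_range_succ]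
      omega
  have t1 := F_top (g (2 * D)) (D + 1) (-1)
  have t2 := s1 _ le_rfl
  have t3 := s3 _ le_rfl
  have t4 : 0 < #{i ∈ range (D + 1) | p (2 * D + 1) i ≠ 0} := by
    obtain ⟨i, hi⟩ := hd
    have hi' : i ≤ 2 * D + 1 := not_lt.1 fun c => hi (pz _ _ c)
    refine card_pos.2 ?_
    rcases Nat.lt_or_ge D i with c | c
    · exact ⟨2 * D + 1 - i, mem_filter.2 ⟨mem_range.2 (by omega),
        by rwa [ps _ _ i (by omega)]⟩⟩
    · exact ⟨i, mem_filter.2 ⟨mem_range.2 (by omega), hi⟩⟩
  simp only [hg (2 * D), top, zero_add] at t1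
  rw [show (2 * D + 1) / 2 = D by omega] at t2
  rw [sum_range_succ, show (2 * D + 1 + 1) / 2 = D + 1 by omega]
  omega

end Pool.Agent.P.MP_86d0e2_an
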