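import Pool.Agent.P.MP_86d0e2_an.Defs
import Pool.Agent.P.MP_86d0e2_an.Var

/-! The lower bound for the number of off-diagonal components. -/

namespace Pool.Agent.P.MP_86d0e2_an

open Finset Polynomial

variable {N : ℕ} {c : Fin N → ℂ} {a b : Fin N → ℕ}

theorem nsq_eq (c : Fin N → ℂ) (a b : Fin N → ℕ) (z w : ℂ) :
    nsq c a b z w = ∑ j, ‖c j‖ ^ 2 * (‖z‖ ^ 2) ^ a j * (‖w‖ ^ 2) ^ b j := by
  refine sum_congr rfl fun j _ => ?_
  rw [norm_mul, norm_mul, norm_pow, norm_pow]
  ring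

theorem nsq_sqrt (c : Fin N → ℂ) (a b : Fin N → ℕ) {x y : ℝ} (hx : 0 ≤ x) (hy : 0 ≤ y) :
    nsq c a b (√x : ℝ) (√y : ℝ) = ∑ j, ‖c j‖ ^ 2 * x ^ a j * y ^ b j := by
  simp only [nsq_eq, Complex.norm_real, Real.norm_eq_abs, sq_abs, Real.sq_sqrt hx, Real.sq_sqrt hy]

/-- the coefficient of `x ^ i * y ^ (n - i)` -/
noncomputable def pc (c : Fin N → ℂ) (a b : Fin N → ℕ) (n i : ℕ) : ℝ :=
  ∑ j, if a j = i ∧ a j + b j = n then ‖c j‖ ^ 2 else 0

theorem pc_symm (h : ∀ z w : ℂ, nsq c a b z w = nsq c a b w z) (n i k : ℕ) (e : i + k = n) :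
    pc c a b n i = pc c a b n k := by
  let m : ℕ → ℕ → (Fin 2 →₀ ℕ) := fun s t => Finsupp.single 0 s + Finsupp.single 1 t
  have mi : ∀ s t s' t', m s t = m s' t' ↔ s = s' ∧ t = t' := fun s t s' t' =>
    ⟨fun h => ⟨by simpa [m] using DFunLike.congr_fun h 0, by simpa [m] using DFunLike.congr_fun h 1⟩,
      by rintro ⟨rfl, rfl⟩; rfl⟩
  have ev : ∀ (x : Fin 2 → ℝ) s t r, MvPolynomial.eval x (MvPolynomial.monomial (m s t) r) =
      r * x 0 ^ s * x 1 ^ t := fun x s t r => by
    simp only [m, MvPolynomial.eval_monomial]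
    rw [Finsupp.prod_add_index' (fun _ => pow_zero _) (fun _ _ _ => pow_add _ _ _)]
    simp [Finsupp.prod_single_index, mul_assoc]
  have key : (∑ j, MvPolynomial.monomial (m (a j) (b j)) (‖c j‖ ^ 2) : MvPolynomial (Fin 2) ℝ) =
      ∑ j, MvPolynomial.monomial (m (b j) (a j)) (‖c j‖ ^ 2) :=
    MvPolynomial.funext_set (fun _ => Set.Ici 0) (fun _ => Set.Ici_infinite 0) fun x hx => by
      have h0 := hx 0 trivial
      have h1 := hx 1 trivial
      simp only [map_sum, ev]
      rw [← nsq_sqrt c a b h0 h1, h, nsq_sqrt c a b h1 h0]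
      exact sum_congr rfl fun j _ => by ring
  have := congrArg (MvPolynomial.coeff (m i k)) key
  simp only [MvPolynomial.coeff_sum, MvPolynomial.coeff_monomial, mi] at this
  unfold pc
  refine (sum_congr rfl fun j _ => if_congr (by omega) rfl rfl).trans
    (this.trans (sum_congr rfl fun j _ => if_congr (by omega) rfl rfl))

/-- the rows of the quotient by `x + y - 1` -/
noncomputable def Rw (c : Fin N → ℂ) (a b : Fin N → ℕ) (n : ℕ) : ℝ[X] :=
  (X + 1) ^ n - ∑ j, if a j + b j ≤ n then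
    C (‖c j‖ ^ 2) * X ^ a j * (X + 1) ^ (n - (a j + b j)) else 0

/-- the rows of the squared norm -/
noncomputable def Pw (c : Fin N → ℂ) (a b : Fin N → ℕ) (n : ℕ) : ℝ[X] :=
  ∑ j, if a j + b j = n then C (‖c j‖ ^ 2) * X ^ a j else 0

theorem coeff_Pw (n i : ℕ) : (Pw c a b n).coeff i = pc c a b n i := by
  rw [Pw, finsetSum_coeff]
  refine sum_congr rfl fun j _ => ?_
  by_cases h : a j + b j = n
  · simp only [h, if_true, and_true, coeff_C_mul_X_pow, eq_comm]
  · simp [h]

theorem Rw_succ (n : ℕ) : Rw c a b (n + 1) = Rw c a b n * X + Rw c a b n - Pw c a b (n + 1) := by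
  have : ∀ j, (if a j + b j ≤ n + 1 then
      C (‖c j‖ ^ 2) * X ^ a j * (X + 1) ^ (n + 1 - (a j + b j)) else 0 : ℝ[X]) =
      (if a j + b j ≤ n then C (‖c j‖ ^ 2) * X ^ a j * (X + 1) ^ (n - (a j + b j)) else 0) *
        (X + 1) + if a j + b j = n + 1 then C (‖c j‖ ^ 2) * X ^ a j else 0 := fun j => by
    rcases lt_trichotomy (a j + b j) (n + 1) with h | h | h
    · rw [if_pos h.le, if_pos (by omega), if_neg h.ne,
        show n + 1 - (a j + b j) = n - (a j + b j) + 1 by omega]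
      ring
    · rw [if_pos h.le, if_neg (by omega), if_pos h, h]
      simp
    · rw [if_neg (by omega), if_neg (by omega), if_neg h.ne']
      simp
  simp only [Rw, Pw, this, sum_add_distrib, ← sum_mul]
  ring

theorem Rw_top {d : ℕ} (h : IsSymMap d c a b) : Rw c a b d = 0 := by
  refine eq_zero_of_infinite_isRoot _ ((Set.Ioi_infinite 0).mono fun u (hu : 0 < u) => ?_)
  have h1 : 0 < u + 1 := by linarith
  have h2 := h.sphere (√(u / (u + 1)) : ℝ) (√(1 / (u + 1)) : ℝ) (by
    simp only [Complex.norm_real, Real.norm_eq_abs, sq_abs]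
    rw [Real.sq_sqrt (by positivity), Real.sq_sqrt (by positivity)]
    field_simp)
  rw [nsq_sqrt c a b (by positivity) (by positivity)] at h2
  change eval u (Rw c a b d) = 0
  simp only [Rw, eval_sub, eval_pow, eval_add, eval_X, eval_one, eval_finsetSum]
  have h3 := congrArg (· * (u + 1) ^ d) h2
  simp only [one_mul, sum_mul] at h3
  rw [sub_eq_zero, ← h3]
  refine sum_congr rfl fun j _ => ?_
  split_ifs with e
  · obtain ⟨k, rfl⟩ := Nat.exists_eq_add_of_le e
    simp only [eval_mul, eval_C, eval_pow, eval_add, eval_X, eval_one, Nat.add_sub_cancel_left,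
      div_pow, pow_add, one_pow]
    field_simp
  · have : c j = 0 := not_not.1 fun n => e (h.deg_le j n)
    simp [this]

theorem pc_ne {n i : ℕ} (h : pc c a b n i ≠ 0) : ∃ j, c j ≠ 0 ∧ a j = i ∧ a j + b j = n := by
  obtain ⟨j, -, hj⟩ := exists_ne_zero_of_sum_ne_zero h
  split_ifs at hj with e
  · exact ⟨j, fun z => hj (by simp [z]), e⟩
  · exact absurd rfl hj

open scoped Classical in
theorem lower {d : ℕ} (hd : Odd d) (h : IsSymMap d c a b) :
    2 * (d / 4 + 1) ≤ #{j | c j ≠ 0 ∧ a j ≠ b j} := by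
  obtain ⟨D, rfl⟩ := hd
  have pn : ∀ n i, 0 ≤ pc c a b n i := fun n i =>
    sum_nonneg fun j _ => by split_ifs <;> positivity
  have h1 := rows (q := fun n i => (Rw c a b n).coeff i) (p := pc c a b) (D := D)
    (fun i => by
      simp only [Rw, pow_zero, coeff_sub, finsetSum_coeff, coeff_one, Nat.succ_ne_zero, if_false]
      rw [sum_eq_zero, sub_zero]
      intro j _
      split_ifs with e
      · rw [show a j = 0 by omega, Nat.zero_sub, pow_zero, pow_zero, mul_one, mul_one, coeff_C_succ]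
      · rfl)
    (fun n => by simp only [Rw_succ, coeff_sub, coeff_add, coeff_mul_X_zero, zero_add, coeff_Pw])
    (fun n i => by simp only [Rw_succ, coeff_sub, coeff_add, coeff_mul_X, coeff_Pw]) pn
    (fun n i hi => not_not.1 fun e => by
      obtain ⟨j, -, h1, h2⟩ := pc_ne e
      omega)
    (pc_symm h.symm) (fun i => by simp only [Rw_top h, coeff_zero]) (by
      obtain ⟨j, h1, h2⟩ := h.deg_eq
      refine ⟨a j, ne_of_gt (lt_of_lt_of_le ?_ (single_le_sum
        (f := fun k => if a k = a j ∧ a k + b k = 2 * D + 1 then ‖c k‖ ^ 2 else 0)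
        (fun k _ => by split_ifs <;> positivity) (mem_univ j)))⟩
      rw [if_pos ⟨rfl, h2⟩]
      positivity)
  rw [← card_sigma] at h1
  generalize hS : (range (2 * D + 2)).sigma
    (fun n => {i ∈ range ((n + 1) / 2) | pc c a b n i ≠ 0}) = S at h1
  have mS : ∀ x ∈ S, 2 * x.2 < x.1 ∧ pc c a b x.1 x.2 ≠ 0 := fun x hx => by
    rw [← hS, mem_sigma, mem_filter, mem_range, mem_range] at hx
    exact ⟨by omega, hx.2.2⟩
  have l1 : #S ≤ #{j | c j ≠ 0 ∧ a j < b j} :=
    card_le_card_of_surjOn (fun j => ⟨a j + b j, a j⟩) fun x hx => by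
      obtain ⟨j, h1, h2, h3⟩ := pc_ne (mS x hx).2
      have := (mS x hx).1
      exact ⟨j, by simpa using ⟨h1, by omega⟩, by simp only [h2 ▸ h3, h2]⟩
  have l2 : #S ≤ #{j | c j ≠ 0 ∧ b j < a j} :=
    card_le_card_of_surjOn (fun j => ⟨a j + b j, b j⟩) fun x hx => by
      have := (mS x hx).1
      obtain ⟨j, h1, h2, h3⟩ := pc_ne (n := x.1) (i := x.1 - x.2) (by
        rw [pc_symm h.symm _ _ x.2 (by omega)]
        exact (mS x hx).2)
      exact ⟨j, by simpa using ⟨h1, by omega⟩, by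
        beta_reduce
        rw [h3, show b j = x.2 by omega]⟩
  have l3 : #{j | c j ≠ 0 ∧ a j < b j} + #{j | c j ≠ 0 ∧ b j < a j} ≤
      #{j | c j ≠ 0 ∧ a j ≠ b j} := by
    rw [← card_union_of_disjoint (disjoint_filter.2 fun j _ h1 h2 => by omega)]
    refine card_le_card fun j hj => ?_
    simp only [mem_union, mem_filter, mem_univ, true_and] at hj ⊢
    rcases hj with hj | hj <;> exact ⟨hj.1, by omega⟩
  omega

end Pool.Agent.P.MP_86d0e2_an
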