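import Mathlib

/-! The Lucas triangle, Waring's formula and the far-arm identity. -/

namespace Pool.Agent.P.MP_86d0e2_an

open Finset Polynomial

/-- the Lucas triangle -/
def T : ℕ → ℕ → ℕ
  | 0, 0 => 2
  | 0, _ + 1 => 0
  | 1, 0 => 1
  | 1, _ + 1 => 0
  | m + 2, 0 => T (m + 1) 0
  | m + 2, i + 1 => T (m + 1) (i + 1) + T m i

theorem T_zero : ∀ m, T (m + 1) 0 = 1
  | 0 => rfl
  | m + 1 => by rw [T, T_zero m]

theorem T_eq_zero : ∀ m i, m < 2 * i → T m i = 0
  | 0, 0, h => by omega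
  | 0, _ + 1, _ => rfl
  | 1, 0, h => by omega
  | 1, _ + 1, _ => rfl
  | m + 2, 0, h => by omega
  | m + 2, i + 1, h => by rw [T, T_eq_zero (m + 1) _ (by omega), T_eq_zero m i (by omega)]

theorem T_mono : ∀ m i, T m (i + 1) ≤ T (m + 1) (i + 1)
  | 0, _ => Nat.zero_le _
  | m + 1, i => by rw [T]; omega

theorem T_one : ∀ m, T m 1 ≤ m
  | 0 => le_rfl
  | 1 => Nat.zero_le _
  | 2 => le_rfl
  | m + 3 => by
    rw [T, T_zero]
    exact Nat.succ_le_succ (T_one (m + 2))

theorem T_ratio : ∀ m i, (i + 1) * T m (i + 1) + 2 * i * T m i ≤ m * T m i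
  | 0, 0 => le_rfl
  | 0, _ + 1 => by simp [T]
  | 1, _ + 1 => by simp [T]
  | m + 1, 0 => by
    have := T_one (m + 1)
    rw [T_zero, zero_add]
    omega
  | m + 2, i + 1 => by
    have := T_ratio (m + 1) (i + 1)
    have := T_ratio m i
    have := T_mono m i
    rw [T, T]
    nlinarith

theorem T_anti {m i : ℕ} (h : m ≤ 3 * i) : T m (i + 1) ≤ T m i := by
  have := T_ratio m i
  have := Nat.mul_le_mul_right (T m i) h
  refine Nat.le_of_mul_le_mul_left (c := i + 1) ?_ (by omega)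
  nlinarith

theorem waring {R : Type*} [CommRing R] (a b : R) : ∀ m M, m / 2 < M →
    a ^ m + b ^ m = ∑ i ∈ range M, (-1) ^ i * T m i * (a * b) ^ i * (a + b) ^ (m - 2 * i)
  | _, 0, h => by omega
  | 0, M + 1, _ => by simp [sum_range_succ', T, one_add_one_eq_two]
  | 1, M + 1, _ => by simp [sum_range_succ', T]
  | m + 2, M + 1, h => by
    have e : a ^ (m + 2) + b ^ (m + 2) =
      (a + b) * (a ^ (m + 1) + b ^ (m + 1)) - a * b * (a ^ m + b ^ m) := by ring
    rw [e, waring a b (m + 1) (M + 1) (by omega), waring a b m M (by omega), sum_range_succ',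
      sum_range_succ', mul_add, mul_sum, mul_sum, add_sub_right_comm, ← sum_sub_distrib, T]
    congr 1
    · refine sum_congr rfl fun i _ => ?_
      rw [T, show m + 2 - 2 * (i + 1) = m - 2 * i by omega]
      rcases Nat.lt_or_ge (m + 1) (2 * (i + 1)) with c | c
      · rw [T_eq_zero _ _ c]
        push_cast
        ring
      · rw [show m - 2 * i = m + 1 - 2 * (i + 1) + 1 by omega]
        push_cast
        ring
    · simp only [mul_zero, Nat.sub_zero]
      ring

/-- the defect of the far-arm identity -/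
def G {R : Type*} [CommRing R] (D n A M : ℕ) (x y : R) : R :=
  1 - x ^ (2 * D + 1) - y ^ (2 * D + 1) -
    ∑ i ∈ Ico n (D + 1), T (2 * D + 1) i * x ^ i * y ^ (2 * D + 1 - 2 * i) -
    ∑ i ∈ Ico n (D + 1), T (2 * D + 1) i * y ^ i * x ^ (2 * D + 1 - 2 * i) +
    ∑ i ∈ Ico A M, (-1) ^ i * T (2 * D + 1) i * (x * y) ^ i

theorem G_symm {R : Type*} [CommRing R] (D n A M : ℕ) (x y : R) :
    G D n A M x y = G D n A M y x := by
  simp only [G, mul_comm y x]
  ring

theorem G_dvd {R : Type*} [CommRing R] {D n A M : ℕ} {x y : R} (h : x + y = 1)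
    (h1 : A + 2 * n ≤ 2 * D + 3) (h2 : A ≤ n) (h3 : n ≤ D + 1) : x ^ A ∣ G D n A M x y := by
  have w := waring 1 (-y) (2 * D + 1) (D + 1) (by omega)
  rw [one_pow, Odd.neg_pow ⟨D, rfl⟩, show 1 + -y = x by rw [← h]; ring, range_eq_Ico,
    ← sum_Ico_consecutive _ (Nat.zero_le n) h3] at w
  have e : ∀ i, (-1) ^ i * (T (2 * D + 1) i : R) * (1 * -y) ^ i * x ^ (2 * D + 1 - 2 * i) =
      T (2 * D + 1) i * y ^ i * x ^ (2 * D + 1 - 2 * i) := fun i => by
    rw [mul_right_comm ((-1) ^ i), ← mul_pow]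
    simp [mul_comm]
  simp only [e] at w
  have : G D n A M x y =
      ∑ i ∈ Ico 0 n, T (2 * D + 1) i * y ^ i * x ^ (2 * D + 1 - 2 * i) - x ^ (2 * D + 1) -
      ∑ i ∈ Ico n (D + 1), T (2 * D + 1) i * x ^ i * y ^ (2 * D + 1 - 2 * i) +
      ∑ i ∈ Ico A M, (-1) ^ i * T (2 * D + 1) i * (x * y) ^ i := by
    rw [G]
    linear_combination w
  rw [this]
  refine dvd_add (dvd_sub (dvd_sub (dvd_sum fun i hi => ?_) (pow_dvd_pow _ (by omega)))
    (dvd_sum fun i hi => ?_)) (dvd_sum fun i hi => ?_) <;> rw [mem_Ico] at hi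
  · exact (pow_dvd_pow _ (by omega)).mul_left _
  · exact ((pow_dvd_pow _ (by omega)).mul_left _).mul_right _
  · rw [mul_pow]
    exact ((pow_dvd_pow _ hi.1).mul_right _).mul_left _

theorem G_zero {D n A M : ℕ} {x y : ℝ} (h : x + y = 1) (h1 : A + 2 * n ≤ 2 * D + 3) (h2 : A ≤ n)
    (h3 : n ≤ D + 1) (h4 : 2 * D + 1 < n + 2 * A) (h5 : D < M) (h6 : 0 < A) :
    G D n A M x y = 0 := by
  have s : (X : ℝ[X]) + (1 - X) = 1 := by ring
  have dY : (1 - X : ℝ[X]).natDegree = 1 := by compute_degree!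
  have z : G D n A M (X : ℝ[X]) (1 - X) = 0 := by
    have c : IsCoprime (X : ℝ[X]) (1 - X) := ⟨1, 1, by ring⟩
    refine eq_zero_of_dvd_of_natDegree_lt (c.pow.mul_dvd (G_dvd s h1 h2 h3)
      (by rw [G_symm]; exact G_dvd (by ring) h1 h2 h3)) ?_
    rw [natDegree_mul (by simp) (pow_ne_zero _ fun e => by simp [e] at dY), natDegree_pow,
      natDegree_pow, dY, natDegree_X]
    have w := waring (X : ℝ[X]) (1 - X) (2 * D + 1) M (by omega)
    simp only [s, one_pow, mul_one] at w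
    rw [range_eq_Ico, ← sum_Ico_consecutive _ (Nat.zero_le A) (by omega)] at w
    have : G D n A M (X : ℝ[X]) (1 - X) =
        1 - ∑ i ∈ Ico 0 A, (-1 : ℝ[X]) ^ i * T (2 * D + 1) i * (X * (1 - X) : ℝ[X]) ^ i -
        ∑ i ∈ Ico n (D + 1), (T (2 * D + 1) i : ℝ[X]) * (X : ℝ[X]) ^ i *
          (1 - X : ℝ[X]) ^ (2 * D + 1 - 2 * i) -
        ∑ i ∈ Ico n (D + 1), (T (2 * D + 1) i : ℝ[X]) * (1 - X : ℝ[X]) ^ i *
          (X : ℝ[X]) ^ (2 * D + 1 - 2 * i) := by
      rw [G]
      linear_combination (-1) * w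
    rw [this]
    have l : ∀ (p q : ℝ[X]) i j, p.natDegree = 1 → q.natDegree = 1 → ∀ r : ℝ[X], r.natDegree = 0 →
        (r * p ^ i * q ^ j).natDegree ≤ i + j := fun p q i j hp hq r hr => by
      refine natDegree_mul_le.trans (add_le_add (natDegree_mul_le.trans ?_) ?_) <;>
        simp [natDegree_pow, hp, hq, hr]
    refine lt_of_le_of_lt (b := 2 * A - 1) ?_ (by omega)
    refine (natDegree_sub_le _ _).trans (max_le ((natDegree_sub_le _ _).trans (max_le
      ((natDegree_sub_le _ _).trans (max_le (by simp) ?_)) ?_)) ?_) <;>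
      refine natDegree_sum_le_of_forall_le _ _ fun i hi => ?_ <;> rw [mem_Ico] at hi
    · rw [mul_pow, ← mul_assoc]
      refine (l _ _ _ _ natDegree_X dY _ (Nat.le_zero.1 (natDegree_mul_le.trans ?_))).trans
        (by omega)
      simp [natDegree_pow]
    · exact (l _ _ _ _ natDegree_X dY _ (natDegree_natCast _)).trans (by omega)
    · exact (l _ _ _ _ dY natDegree_X _ (natDegree_natCast _)).trans (by omega)
  have := congrArg (eval x) z
  simpa [G, eval_finsetSum, show 1 - x = y by linarith] using this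

end Pool.Agent.P.MP_86d0e2_an
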