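import Pool.Agent.P.MP_86d0e2_an.Low
import Pool.Agent.P.MP_86d0e2_an.Luc

/-! The construction. -/

namespace Pool.Agent.P.MP_86d0e2_an

open Finset

open scoped Classical in
theorem build {ι : Type*} {d : ℕ} (U : Finset ι) (w : ι → ℝ) (a b : ι → ℕ) (hw : ∀ i ∈ U, 0 ≤ w i)
    (h1 : ∀ x y : ℝ, x + y = 1 → ∑ i ∈ U, w i * x ^ a i * y ^ b i = 1)
    (hs : ∀ x y : ℝ, ∑ i ∈ U, w i * x ^ a i * y ^ b i = ∑ i ∈ U, w i * y ^ a i * x ^ b i)
    (hd : ∀ i ∈ U, a i + b i ≤ d) (he : ∃ i ∈ U, w i ≠ 0 ∧ a i + b i = d) :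
    ∃ (c : Fin #U → ℂ) (a' b' : Fin #U → ℕ), IsSymMap d c a' b' ∧
      #{j | c j ≠ 0 ∧ a' j ≠ b' j} ≤ #{i ∈ U | a i ≠ b i} := by
  let e := U.equivFin.symm
  have n : ∀ z v : ℂ, nsq (fun j => (√(w (e j)) : ℝ)) (fun j => a (e j)) (fun j => b (e j)) z v =
      ∑ i ∈ U, w i * (‖z‖ ^ 2) ^ a i * (‖v‖ ^ 2) ^ b i := fun z v => by
    rw [nsq_eq, ← sum_coe_sort U, ← e.sum_comp]
    refine sum_congr rfl fun j _ => ?_
    rw [Complex.norm_real, Real.norm_eq_abs, sq_abs, Real.sq_sqrt (hw _ (e j).2)]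
  refine ⟨fun j => (√(w (e j)) : ℝ), fun j => a (e j), fun j => b (e j),
    ⟨fun z v h => by rw [n, h1 _ _ h], fun z v => by rw [n, n, hs], fun j _ => hd _ (e j).2, ?_⟩,
    card_le_card_of_injOn (fun j => e j) (fun j hj => ?_) fun j _ k _ h =>
      e.injective (Subtype.ext h)⟩
  · obtain ⟨i, hi, h2, h3⟩ := he
    refine ⟨e.symm ⟨i, hi⟩, ?_, by simpa using h3⟩
    simpa [Real.sqrt_eq_zero (hw i hi)] using h2
  · simp only [coe_filter, mem_univ, true_and, Set.mem_ofPred_eq] at hj ⊢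
    exact ⟨(e j).2, hj.2⟩

open scoped Classical in
theorem build' {σ τ : Type*} {d : ℕ} (S : Finset σ) (w : σ → ℝ) (a b : σ → ℕ) (S' : Finset τ)
    (v : τ → ℝ) (g : τ → ℕ) (hw : ∀ i ∈ S, 0 ≤ w i) (hv : ∀ i ∈ S', 0 ≤ v i)
    (h1 : ∀ x y : ℝ, x + y = 1 → ∑ i ∈ S, w i * x ^ a i * y ^ b i +
      ∑ i ∈ S, w i * y ^ a i * x ^ b i + ∑ i ∈ S', v i * (x * y) ^ g i = 1)
    (hd : ∀ i ∈ S, a i + b i ≤ d) (hg : ∀ i ∈ S', g i + g i ≤ d)
    (he : ∃ i ∈ S, w i ≠ 0 ∧ a i + b i = d) :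
    ∃ (N : ℕ) (c : Fin N → ℂ) (a' b' : Fin N → ℕ), IsSymMap d c a' b' ∧ N = 2 * #S + #S' ∧
      #{j | c j ≠ 0 ∧ a' j ≠ b' j} ≤ 2 * #S := by
  obtain ⟨c, a', b', h, k⟩ := build (d := d) ((S.disjSum S).disjSum S') (Sum.elim (Sum.elim w w) v)
    (Sum.elim (Sum.elim a b) g) (Sum.elim (Sum.elim b a) g)
    (by rintro ((i | i) | i) hi <;> simp at hi ⊢ <;> simp [hw, hv, hi])
    (fun x y h => by
      rw [← h1 x y h]
      simp only [sum_disjSum, Sum.elim_inl, Sum.elim_inr, mul_pow, mul_assoc, mul_comm (y ^ _)])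
    (fun x y => by
      simp only [sum_disjSum, Sum.elim_inl, Sum.elim_inr, mul_assoc, mul_comm (y ^ _)]
      ring)
    (by rintro ((i | i) | i) hi <;> simp at hi ⊢ <;> simp [hd, hg, hi, add_comm (b _)])
    (by
      obtain ⟨i, hi, h⟩ := he
      exact ⟨.inl (.inl i), by simpa, h⟩)
  refine ⟨_, c, a', b', h, by simp [two_mul], k.trans ?_⟩
  rw [card_filter, sum_disjSum, sum_disjSum, two_mul]
  simp only [Sum.elim_inl, Sum.elim_inr, ne_eq, not_true_eq_false, if_false, sum_const_zero,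
    add_zero]
  rw [card_eq_sum_ones S]
  exact add_le_add (sum_le_sum fun _ _ => by split_ifs <;> simp)
    (sum_le_sum fun _ _ => by split_ifs <;> simp)

theorem sum_pairs (f : ℕ → ℝ) {k M : ℕ} (h : k ≤ M) :
    ∑ i ∈ Ico (2 * k + 1) (2 * M + 1), f i = ∑ q ∈ Ico k M, (f (2 * q + 1) + f (2 * q + 2)) := by
  induction M, h using Nat.le_induction with
  | base => simp
  | succ M h ih =>
    rw [sum_Ico_succ_top h, ← ih, show 2 * (M + 1) + 1 = 2 * M + 1 + 1 + 1 by ring,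
      sum_Ico_succ_top (by omega), sum_Ico_succ_top (by omega), add_assoc]

/-- the far-arm identity with the axis terms taken in pairs -/
theorem far {D k : ℕ} (hk : k = (2 * D + 1) / 6) {x y : ℝ} (h : x + y = 1) (hD : 0 < D) :
    x ^ (2 * D + 1) + y ^ (2 * D + 1) +
    ∑ i ∈ Ico (D - k + 1) (D + 1), T (2 * D + 1) i * x ^ i * y ^ (2 * D + 1 - 2 * i) +
    ∑ i ∈ Ico (D - k + 1) (D + 1), T (2 * D + 1) i * y ^ i * x ^ (2 * D + 1 - 2 * i) +
    ∑ q ∈ Ico k ((D + 1) / 2), (T (2 * D + 1) (if D = 3 * q + 2 ∧ q = k then 2 * q + 2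
      else 2 * q + 1) * (x * y) ^ (2 * q + 1) - T (2 * D + 1) (2 * q + 2) * (x * y) ^ (2 * q + 2))
      = 1 := by
  have p := sum_pairs (fun i => (-1) ^ i * T (2 * D + 1) i * (x * y) ^ i)
    (show k ≤ (D + 1) / 2 by omega)
  have e1 : ∀ q, (-1 : ℝ) ^ (2 * q + 1) = -1 := fun q => Odd.neg_one_pow ⟨q, rfl⟩
  have e2 : ∀ q, (-1 : ℝ) ^ (2 * q + 2) = 1 := fun q => Even.neg_one_pow ⟨q + 1, by ring⟩
  simp only [e1, e2] at p
  by_cases c : D = 3 * k + 2
  · have g := G_zero (D := D) (n := D - k) (A := 2 * k + 2) (M := 2 * ((D + 1) / 2) + 1) h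
      (by omega) (by omega) (by omega) (by omega) (by omega) (by omega)
    rw [G, sum_eq_sum_Ico_succ_bot (show D - k < D + 1 by omega),
      sum_eq_sum_Ico_succ_bot (show D - k < D + 1 by omega),
      show 2 * D + 1 - 2 * (D - k) = 2 * k + 1 by omega] at g
    rw [sum_eq_sum_Ico_succ_bot (by omega), sum_eq_sum_Ico_succ_bot (a := k) (by omega),
      e1] at p
    rw [sum_eq_sum_Ico_succ_bot (a := k) (by omega), if_pos ⟨c, rfl⟩,
      sum_congr rfl (s₁ := Ico (k + 1) _) (g := fun q =>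
      T (2 * D + 1) (2 * q + 1) * (x * y) ^ (2 * q + 1) -
      T (2 * D + 1) (2 * q + 2) * (x * y) ^ (2 * q + 2)) fun q hq => by
        rw [if_neg fun e => by have := (mem_Ico.1 hq).1; omega]]
    generalize D - k + 1 = n at *
    rw [show D - k = 2 * k + 2 by omega] at g
    simp only [sum_add_distrib, sum_sub_distrib, one_mul, neg_mul, sum_neg_distrib] at p ⊢
    linear_combination p - g - T (2 * D + 1) (2 * k + 2) * (x * y) ^ (2 * k + 1) * h
  · have g := G_zero (D := D) (n := D - k + 1) (A := 2 * k + 1) (M := 2 * ((D + 1) / 2) + 1) h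
      (by omega) (by omega) (by omega) (by omega) (by omega) (by omega)
    rw [G] at g
    rw [sum_congr rfl (s₁ := Ico k _) (g := fun q =>
      T (2 * D + 1) (2 * q + 1) * (x * y) ^ (2 * q + 1) -
      T (2 * D + 1) (2 * q + 2) * (x * y) ^ (2 * q + 2)) fun q hq => by
        rw [if_neg fun e => by omega]]
    simp only [sum_add_distrib, sum_sub_distrib, one_mul, neg_mul, sum_neg_distrib] at p ⊢
    linear_combination p - g

open scoped Classical in
theorem upper {d : ℕ} (hd : Odd d) : ∃ (N : ℕ) (c : Fin N → ℂ) (a b : Fin N → ℕ),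
    IsSymMap d c a b ∧ N + d / 6 = (d + 3) / 2 + d / 4 ∧
      #{j | c j ≠ 0 ∧ a j ≠ b j} ≤ 2 * (d / 4 + 1) := by
  obtain ⟨D, rfl⟩ := hd
  obtain ⟨k, hk⟩ : ∃ k, k = (2 * D + 1) / 6 := ⟨_, rfl⟩
  obtain ⟨N, c, a, b, h, h1, h2⟩ := build' (d := 2 * D + 1)
    (({()} : Finset Unit).disjSum ((Ico (D - k + 1) (D + 1)).disjSum (Ico k (D / 2))))
    (Sum.elim (fun _ => 1) (Sum.elim (fun i => T (2 * D + 1) i)
      fun q => T (2 * D + 1) (2 * q + 2) / 2))
    (Sum.elim (fun _ => 2 * D + 1) (Sum.elim (fun i => i) fun q => 2 * q + 1))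
    (Sum.elim (fun _ => 0) (Sum.elim (fun i => 2 * D + 1 - 2 * i) fun q => 2 * q + 3))
    (Ico k ((D + 1) / 2)) (fun q => T (2 * D + 1) (if D = 3 * q + 2 ∧ q = k then 2 * q + 2
      else 2 * q + 1) - T (2 * D + 1) (2 * q + 2) / 2) (fun q => 2 * q + 1)
    (by rintro (i | i | i) - <;> simp only [Sum.elim_inl, Sum.elim_inr] <;> positivity)
    (fun q hq => by
      rw [mem_Ico] at hq
      have : (0 : ℝ) ≤ T (2 * D + 1) (2 * q + 2) := by positivity
      split_ifs with e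
      · linarith
      · have : (T (2 * D + 1) (2 * q + 2) : ℝ) ≤ T (2 * D + 1) (2 * q + 1) :=
          Nat.cast_le.2 (T_anti (by omega))
        linarith)
    (fun x y h => by
      simp only [sum_disjSum, Sum.elim_inl, Sum.elim_inr, sum_singleton, one_mul, pow_zero, mul_one]
      rcases Nat.eq_zero_or_pos D with rfl | hD
      · simpa [hk] using h
      have ex : ∀ x y : ℝ,
          ∑ q ∈ Ico k (D / 2), T (2 * D + 1) (2 * q + 2) / 2 * x ^ (2 * q + 1) * y ^ (2 * q + 3) =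
          ∑ q ∈ Ico k ((D + 1) / 2),
            T (2 * D + 1) (2 * q + 2) / 2 * x ^ (2 * q + 1) * y ^ (2 * q + 3) := fun x y =>
        sum_subset (Ico_subset_Ico_right (by omega)) fun q h1 h2 => by
          rw [mem_Ico] at h1 h2
          simp [T_eq_zero _ _ (show 2 * D + 1 < 2 * (2 * q + 2) by omega)]
      have key : ∀ (α μ : ℝ) (q : ℕ), α * (x * y) ^ (2 * q + 1) - μ * (x * y) ^ (2 * q + 2) =
          μ / 2 * x ^ (2 * q + 1) * y ^ (2 * q + 3) + μ / 2 * y ^ (2 * q + 1) * x ^ (2 * q + 3) +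
            (α - μ / 2) * (x * y) ^ (2 * q + 1) := fun α μ q => by
        linear_combination -μ / 2 * (x * y) ^ (2 * q + 1) * (x + y + 1) * h
      have f := far hk h hD
      simp only [key, sum_add_distrib] at f
      rw [ex, ex]
      linarith)
    (by rintro (i | i | i) hi <;> simp at hi ⊢ <;> omega)
    (fun q hq => by
      rw [mem_Ico] at hq
      omega)
    ⟨.inl (), by simp, by simp, rfl⟩
  simp only [card_disjSum, card_singleton, Nat.card_Ico] at h1 h2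
  have : k ≤ D / 2 := by omega
  rw [← hk, show (2 * D + 1) / 4 = D / 2 by omega, show (2 * D + 1 + 3) / 2 = D + 2 by omega]
  clear hk
  exact ⟨N, c, a, b, h, by omega, by omega⟩

end Pool.Agent.P.MP_86d0e2_an
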